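import Pool.Agent.helper32.EX.SpecA

set_option autoImplicit false

namespace Pool.Agent.EX

theorem DM1 : DM1_stmt := by
  intro n C hC
  have hne : Nonempty (Rt C) := ⟨sm C ⟨0, hC.out.ne⟩⟩
  obtain ⟨θ, hθ⟩ := Finite.exists_max (fun α : Rt C => ht α)
  refine ⟨θ, fun i => ?_⟩
  by_contra hi
  rw [not_le] at hi
  have h1 := hθ (rf (sm C i) θ)
  have h2 : ht (rf (sm C i) θ) = ht θ - Q C (sm C i).1 θ.1 := by
    have e : ∀ j, (rf (sm C i) θ).1 j = θ.1 j - Q C (sm C i).1 θ.1 * (sm C i).1 j := fun j => rfl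
    have e2 : ∑ j, (sm C i).1 j = 1 := by
      have e3 : (sm C i).1 = Pi.single i 1 := rfl
      rw [e3, Finset.sum_pi_single']
      simp
    unfold ht
    simp only [e]
    rw [Finset.sum_sub_distrib, ← Finset.mul_sum, e2, mul_one]
  rw [Q_comm] at hi
  omega

end Pool.Agent.EX
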