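import Pool.Agent.helper32.EX.SpecD

set_option autoImplicit false

namespace Pool.Agent.EX

open scoped Pointwise in
theorem SIG (hSYL : SYL_stmt) (hCTR : CTR_stmt) (hUFX : UFX_stmt) (hDM2 : DM2_stmt) : SIG_stmt := by
  classical
  intro n C hC F _ _ θ hθ x
  have hle : UU C F ≤ EG C F := (Subgroup.closure_le _).2 (by
    rintro g ⟨α, t, -, rfl⟩
    exact xl_mem α t)
  obtain ⟨p, hchar⟩ := CharP.exists F
  have hp : p.Prime := CharP.char_is_prime F p
  have hpf : Fact p.Prime := ⟨hp⟩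
  obtain ⟨hpg, hmax⟩ := hSYL C F p hp hchar
  have hfin : Finite (LV C F ≃ₗ[F] LV C F) := Finite.of_injective
    (fun (g : LV C F ≃ₗ[F] LV C F) (v : LV C F) => g v) (fun g g' h => LinearEquiv.ext fun v => congrFun h v)
  let P : Sylow p (EG C F) := ⟨(UU C F).subgroupOf (EG C F), hpg, fun {Q} hQ hl => hmax Q hQ hl⟩
  obtain ⟨g, hg⟩ := MulAction.exists_smul_eq (EG C F) P (x • P)
  have hg' : MulAut.conj g • ((UU C F).subgroupOf (EG C F)) = x • ((UU C F).subgroupOf (EG C F)) := by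
    have h := congrArg (fun Q : Sylow p (EG C F) => (Q : Subgroup (EG C F))) hg
    exact h
  have k1 : ∀ u ∈ (UU C F).subgroupOf (EG C F), ∃ u' ∈ (UU C F).subgroupOf (EG C F), x u = g * u' * g⁻¹ := by
    intro u hu
    have h : x • u ∈ x • ((UU C F).subgroupOf (EG C F)) := Subgroup.smul_mem_pointwise_smul u x _ hu
    rw [← hg', Subgroup.mem_smul_pointwise_iff_exists] at h
    obtain ⟨u', hu', e⟩ := h
    exact ⟨u', hu', e.symm⟩
  have k2 : ∀ u' ∈ (UU C F).subgroupOf (EG C F), ∃ u ∈ (UU C F).subgroupOf (EG C F), x u = g * u' * g⁻¹ := by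
    intro u' hu'
    have h : MulAut.conj g • u' ∈ MulAut.conj g • ((UU C F).subgroupOf (EG C F)) :=
      Subgroup.smul_mem_pointwise_smul u' _ _ hu'
    rw [hg', Subgroup.mem_smul_pointwise_iff_exists] at h
    obtain ⟨u, hu, e⟩ := h
    exact ⟨u, hu, e⟩
  refine ⟨g, fun t => ?_⟩
  have hpos : Pos θ := fun i => ((hDM2 C θ hθ).1 i).le
  have hz : xg θ t ∈ (UU C F).subgroupOf (EG C F) := by
    rw [Subgroup.mem_subgroupOf]
    exact Subgroup.subset_closure ⟨θ, t, hpos, rfl⟩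
  obtain ⟨z', hz', e⟩ := k1 _ hz
  have hcen : ∀ u' ∈ (UU C F).subgroupOf (EG C F), z' * u' = u' * z' := by
    intro u' hu'
    obtain ⟨u, hu, e'⟩ := k2 u' hu'
    have h1 : u * xg θ t = xg θ t * u := Subtype.ext ((hUFX C F θ hθ).2 u (Subgroup.mem_subgroupOf.1 hu) t)
    have h2 := congrArg x h1
    rw [map_mul, map_mul, e, e'] at h2
    have h3 : g * (u' * z') * g⁻¹ = g * (z' * u') * g⁻¹ := by
      calc g * (u' * z') * g⁻¹ = g * u' * g⁻¹ * (g * z' * g⁻¹) := by group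
        _ = g * z' * g⁻¹ * (g * u' * g⁻¹) := h2
        _ = g * (z' * u') * g⁻¹ := by group
    exact (mul_left_cancel (mul_right_cancel h3)).symm
  obtain ⟨t', ht'⟩ := hCTR C F θ hθ z' (Subgroup.mem_subgroupOf.1 hz') (fun u hu => by
    have h := hcen ⟨u, hle hu⟩ (Subgroup.mem_subgroupOf.2 hu)
    exact congrArg Subtype.val h)
  refine ⟨t', ?_⟩
  rw [e]
  have h4 : z' = xg θ t' := Subtype.ext ht'
  rw [h4]

end Pool.Agent.EX
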